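import Pool.Agent.H11.KT.Classify

/-!
# The counts

The decomposition theorem and Euler's formula give `29 ≤ sum deg_i rk_i`. This excludes the product
case, and for Igusa's form it leaves only a smooth sextic.
-/

namespace Pool.Agent.H29.KT

open scoped BigOperators

/-- `29 ≤ sum deg rk`. -/
theorem Discr.count {Lam : Type} [AddCommGroup Lam] {q : Lam → Lam → ℤ} {NS : Set Lam} {x : Lam}
    {End : Prop} (D : Discr q NS x End) (hs : ∀ y z, q y z = q z y)
    (ha : ∀ y z w, q (y + z) w = q y w + q z w) (hx : q x x = 0)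
    (hNS : ∀ y ∈ NS, q x y = 0 → ∃ m n : ℤ, m ≠ 0 ∧ m • y = n • x) :
    23 = 1 + D.hIC + 1 ∧ 29 ≤ ∑ i, D.deg i * (D.M i).rk := by
  have hz : ∀ (m : ℤ) (y z : Lam), q (m • y) z = m * q y z := by
    intro m y z
    let f : Lam →+ ℤ :=
      { toFun := fun y => q y z
        map_zero' := by
          have h := ha 0 0 z
          rw [add_zero] at h
          omega
        map_add' := fun u w => ha u w z }
    have h := map_zsmul f m y
    simpa [f] using h
  have hcomp : ∀ i, D.comp i - 1 = 0 := by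
    intro i
    by_contra hne
    obtain ⟨y, hy, h1, h2⟩ := D.zariski i (by omega)
    obtain ⟨m, n, hm, hmn⟩ := hNS y hy h1
    have h3 : q (m • y) (m • y) = m * (m * q y y) := by
      rw [hz, hs y, hz]
    have h4 : q (n • x) (n • x) = n * (n * q x x) := by
      rw [hz, hs x, hz]
    rw [hmn, h4, hx] at h3
    have h5 : m * (m * q y y) = 0 := by rw [← h3]; ring
    rcases mul_eq_zero.mp h5 with h | h
    · exact hm h
    · rcases mul_eq_zero.mp h with h | h
      · exact hm h
      · omega
  have hsum : ∑ i, (D.comp i - 1) = 0 := Finset.sum_eq_zero fun i _ => hcomp i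
  have h1 := D.decomposition
  rw [hsum, D.inv_eq] at h1
  refine ⟨by omega, ?_⟩
  have h2 := D.lefschetz
  have h3 := D.euler
  have h4 : (∑ i, (D.deg i : ℤ) * (4 - ((D.M i).rk : ℤ))) =
      4 * ∑ i, (D.deg i : ℤ) - ∑ i, (D.deg i : ℤ) * ((D.M i).rk : ℤ) := by
    rw [Finset.mul_sum, ← Finset.sum_sub_distrib]
    refine Finset.sum_congr rfl fun i _ => ?_
    ring
  rw [h4] at h3
  have h5 : ((∑ i, D.deg i * (D.M i).rk : ℕ) : ℤ) = ∑ i, (D.deg i : ℤ) * ((D.M i).rk : ℤ) := by
    push_cast
    rfl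
  have h6 : (29 : ℤ) ≤ ((∑ i, D.deg i * (D.M i).rk : ℕ) : ℤ) := by
    rw [h5]
    have h7 : (D.hIC : ℤ) ≤ D.hline := by exact_mod_cast h2
    linarith [h3, h7, (by omega : (D.hIC : ℤ) = 21)]
  exact_mod_cast h6

variable {I : Type} [Fintype I] {deg : I → ℕ} {M : I → Mono}

/-- THE PRODUCT CASE does not occur. -/
theorem no_product (P : ProductCase deg M 1) (hpos : ∀ i, 0 < deg i)
    (h : 29 ≤ ∑ i, deg i * (M i).rk) : False := by
  classical
  have hne : P.sw.Nonempty := by
    by_contra h0
    have := P.two h0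
    omega
  have key : ∀ i, deg i * (M i).rk + (if i ∈ P.sw then 4 * deg i else 0) ≤ deg i * P.o i := by
    intro i
    by_cases hi : i ∈ P.sw
    · rw [if_pos hi]
      have h2 := P.swap i hi
      have h3 := (M i).rk_le_two
      have h4 : (M i).rk + 4 ≤ P.o i := by omega
      calc deg i * (M i).rk + 4 * deg i = deg i * ((M i).rk + 4) := by ring
        _ ≤ _ := Nat.mul_le_mul_left _ h4
    · rw [if_neg hi, add_zero]
      refine Nat.mul_le_mul_left _ ?_
      have h2 := (M i).rk_le_two
      rcases (M i).classify with ⟨n, hn⟩ | ⟨m, hm, hf⟩ | hneg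
      · rw [P.unip i hi n hn]
        rcases Nat.eq_zero_or_pos n with rfl | hn0
        · rw [(M i).rk_zero hn]
        · have := (M i).rk_unip hn
          omega
      · obtain ⟨a, ha0, ham, ho⟩ := P.fin i hi m hm hf
        have h3 : 2 ≤ P.o i := by
          rcases hm with rfl | rfl | rfl <;> omega
        omega
      · have h3 := P.neg i hi hneg
        omega
  have h1 : ∑ i, (deg i * (M i).rk + (if i ∈ P.sw then 4 * deg i else 0)) ≤
      ∑ i, deg i * P.o i := Finset.sum_le_sum fun i _ => key i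
  rw [P.total, Finset.sum_add_distrib] at h1
  have h2 : ∑ i, (if i ∈ P.sw then 4 * deg i else 0) = 4 * ∑ i ∈ P.sw, deg i := by
    rw [Finset.mul_sum, ← Finset.sum_filter]
    congr 1
    ext i
    simp
  rw [h2] at h1
  have h3 : 0 < ∑ i ∈ P.sw, deg i := Finset.sum_pos (fun i _ => hpos i) hne
  obtain ⟨r, hr⟩ := P.even
  omega

/-- THE ORDERS of a component with a monodromy of finite order: at least two, and the sextic is
holomorphic if the order of `chi_10` is at most three. -/
theorem FinExp.result {m o : ℕ} {e : Fin 7 → ℤ} (F : FinExp m o e) (hm : m = 3 ∨ m = 4 ∨ m = 6) :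
    2 ≤ o ∧ (o ≤ 3 → ∀ j, 0 ≤ e j) := by
  obtain ⟨a, a_pos, a_lt, k, k_mod, ord, coef⟩ := F
  obtain ⟨l, hl⟩ : ∃ l, k = a + m * l := ⟨k / m, by
    have := Nat.mod_add_div k m
    rw [k_mod] at this
    exact this.symm⟩
  have hgen : a = 1 → k = 1 → 4 ≤ m → ∀ j, 0 ≤ e j := by
    intro h1 h2 h4 j
    obtain ⟨r, hr1, hr2, hr3⟩ := coef j
    subst h1 h2
    have hj0 : (0 : ℤ) ≤ (j : ℤ) := by positivity
    have hme : -2 ≤ (m : ℤ) * e j ∧ (j = 3 → 0 ≤ (m : ℤ) * e j) := by
      constructor
      · by_cases hj : j = 3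
        · have := hr3 hj
          subst hj
          rw [hr1]
          norm_num at this ⊢
          linarith
        · have := hr2 hj
          rw [hr1]
          push_cast
          linarith
      · intro hj
        have := hr3 hj
        subst hj
        rw [hr1]
        norm_num at this ⊢
        linarith
    by_contra hneg
    push Not at hneg
    have h5 : (m : ℤ) * e j ≤ (m : ℤ) * (-1) :=
      mul_le_mul_of_nonneg_left (by omega) (by positivity)
    have h6 : (4 : ℤ) ≤ m := by exact_mod_cast h4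
    linarith [hme.1]
  rcases hm with rfl | rfl | rfl
  · exact ⟨by omega, fun h => by exfalso; omega⟩
  · exact ⟨by omega, fun h => hgen (by omega) (by omega) (by omega)⟩
  · exact ⟨by omega, fun h => hgen (by omega) (by omega) (by omega)⟩

variable {hIC : ℕ} {End : Prop}

/-- `rk ≤ o`, and the sextic is holomorphic along the components with `o ≤ rk + 1`. -/
theorem Igusa.rk_le (G : Igusa deg M hIC End) (i : I) :
    (M i).rk ≤ G.o i ∧ (G.o i ≤ (M i).rk + 1 → ∀ k, 0 ≤ G.e i k) := by
  have h2 := (M i).rk_le_two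
  rcases (M i).classify with ⟨n, hn⟩ | ⟨m, hm, hf⟩ | hneg
  · obtain ⟨j, hj, hjk⟩ := G.unip i n hn
    rcases Nat.eq_zero_or_pos n with rfl | hn0
    · have h1 := (M i).rk_zero hn
      exact ⟨by omega, fun h => hjk (by omega)⟩
    · have h1 := (M i).rk_unip hn
      exact ⟨by omega, fun h => hjk (by omega)⟩
  · obtain ⟨F⟩ := G.fin i m hm hf
    obtain ⟨h3, h4⟩ := F.result hm
    exact ⟨by omega, fun h => h4 (by omega)⟩
  · have h3 := G.neg i hneg
    exact ⟨by omega, fun h => by exfalso; omega⟩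

/-- THE COUNT: the sextic is smooth. -/
theorem Igusa.end_of (G : Igusa deg M hIC End) (hpos : ∀ i, 0 < deg i)
    (h : 29 ≤ ∑ i, deg i * (M i).rk) (hb : 23 = 1 + hIC + 1) : End := by
  classical
  have hle : ∀ i, deg i * (M i).rk ≤ deg i * G.o i := fun i =>
    Nat.mul_le_mul_left _ (G.rk_le i).1
  have hsum : ∑ i, deg i * (M i).rk ≤ ∑ i, deg i * G.o i := Finset.sum_le_sum fun i _ => hle i
  have ht := G.total
  have hp0 : G.hp = 0 := by omega
  -- the defects
  have hdef : ∑ i, deg i * (G.o i - (M i).rk) + ∑ i, deg i * (M i).rk = ∑ i, deg i * G.o i := by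
    rw [← Finset.sum_add_distrib]
    refine Finset.sum_congr rfl fun i _ => ?_
    rw [← Nat.mul_add, Nat.sub_add_cancel (G.rk_le i).1]
  have hd1 : ∑ i, deg i * (G.o i - (M i).rk) ≤ 1 := by omega
  have hone : ∀ i, G.o i ≤ (M i).rk + 1 := by
    intro i
    have h1 : deg i * (G.o i - (M i).rk) ≤ 1 :=
      le_trans (Finset.single_le_sum (f := fun i => deg i * (G.o i - (M i).rk))
        (fun _ _ => Nat.zero_le _) (Finset.mem_univ i)) hd1
    have h2 : G.o i - (M i).rk ≤ deg i * (G.o i - (M i).rk) :=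
      Nat.le_mul_of_pos_left _ (hpos i)
    omega
  obtain ⟨S⟩ := G.sextic hp0 fun i => (G.rk_le i).2 (hone i)
  -- the singular points
  have hsing : ∀ s, S.mult s = 2 ∧ S.mu s = 1 ∧ G.o (S.line s) = 2 ∧
      (M (S.line s)).rk ≤ 1 := by
    intro s
    have h1 := S.mult_ge s
    have h2 := S.mu_ge s
    have h3 := S.line_ord s
    have h4 := hone (S.line s)
    have h5 := (M (S.line s)).rk_le_two
    have h6 : S.mult s = 2 := by
      by_contra hne
      have h7 : 2 ≤ S.mult s - 1 := by omega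
      have h8 : 2 ^ 2 ≤ (S.mult s - 1) ^ 2 := Nat.pow_le_pow_left h7 2
      omega
    have h8 := (M (S.line s)).rk_unip (S.line_unip s h6)
    rw [h6] at h2 h3
    have h9 : 1 ≤ S.mu s := by simpa using h2
    exact ⟨h6, by omega, by omega, h8⟩
  have hcard : Fintype.card S.Q ≤ 1 := by
    have h1 : ∑ s : S.Q, 1 ≤ ∑ i, deg i * (G.o i - (M i).rk) := by
      calc ∑ s : S.Q, 1
          ≤ ∑ s : S.Q, deg (S.line s) * (G.o (S.line s) - (M (S.line s)).rk) := by
            refine Finset.sum_le_sum fun s _ => ?_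
            obtain ⟨-, -, h3, h4⟩ := hsing s
            rw [h3, S.line_deg s]
            omega
        _ = ∑ i ∈ Finset.univ.image S.line, deg i * (G.o i - (M i).rk) := by
            rw [Finset.sum_image fun a _ b _ hab => S.line_inj hab]
        _ ≤ _ := Finset.sum_le_sum_of_subset (Finset.subset_univ _)
    simp only [Finset.sum_const, Finset.card_univ, smul_eq_mul, mul_one] at h1
    omega
  have h0 : Fintype.card S.Q ≠ 1 := by
    intro h1
    have h2 := S.node h1 fun s => ⟨(hsing s).1, (hsing s).2.1⟩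
    omega
  exact S.smooth (Fintype.card_eq_zero_iff.mp (by omega))

/-- The end is reached. -/
theorem Discr.result {Lam : Type} [AddCommGroup Lam] {q : Lam → Lam → ℤ} {NS : Set Lam} {x : Lam}
    {End : Prop} (D : Discr q NS x End) (hs : ∀ y z, q y z = q z y)
    (ha : ∀ y z w, q (y + z) w = q y w + q z w) (hx : q x x = 0)
    (hNS : ∀ y ∈ NS, q x y = 0 → ∃ m n : ℤ, m ≠ 0 ∧ m • y = n • x) : End := by
  obtain ⟨hb, h⟩ := D.count hs ha hx hNS
  rcases D.alt with h1 | h1
  · obtain ⟨P⟩ := h1
    rw [D.inv_eq] at P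
    exact (no_product P D.deg_pos h).elim
  · obtain ⟨G⟩ := h1
    exact G.end_of D.deg_pos h hb

end Pool.Agent.H29.KT
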