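import Pool.Agent.H29.KT.Num
import Pool.Agent.H29.KT.Count

/-!
# The end: `t = 1`, `a = 1`
-/

namespace Pool.Agent.H29.KT

theorem dvd_or {p : ℤ} (hp : Prime p) {v : V4} (h1 : p ∣ v 1 * v 2) (h2 : p ∣ v 1 * v 3)
    (h3 : p ∣ v 0 * v 2) (h4 : p ∣ v 0 * v 3) : (p ∣ v 2 ∧ p ∣ v 3) ∨ (p ∣ v 0 ∧ p ∣ v 1) := by
  by_cases h0 : p ∣ v 0
  · by_cases h5 : p ∣ v 1
    · exact Or.inr ⟨h0, h5⟩
    · exact Or.inl ⟨(hp.dvd_or_dvd h1).resolve_left h5, (hp.dvd_or_dvd h2).resolve_left h5⟩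
  · exact Or.inl ⟨(hp.dvd_or_dvd h3).resolve_left h0, (hp.dvd_or_dvd h4).resolve_left h0⟩

variable {Lam : Type} [AddCommGroup Lam] {q : Lam → Lam → ℤ} {fuj : ℚ} {x : Lam} {kap : ℕ}
  {th : Lam → ℤ} {t : ℕ}

/-- IRREDUCIBILITY: no prime divides `t`. -/
theorem K3End.t_eq_one (K : K3End q fuj x kap th t) : t = 1 := by
  by_contra hne
  obtain ⟨p, hp, hpt⟩ := Nat.exists_prime_and_dvd hne
  have hpp : Prime (p : ℤ) := Nat.prime_iff_prime_int.mp hp
  have hptz : (p : ℤ) ∣ (t : ℤ) := by exact_mod_cast hpt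
  -- the class of a vanishing cycle
  have hcls : ∀ j, ((p : ℤ) ∣ K.v j 2 ∧ (p : ℤ) ∣ K.v j 3) ∨
      ((p : ℤ) ∣ K.v j 0 ∧ (p : ℤ) ∣ K.v j 1) := by
    intro j
    have h0 : Sub t ![1, 0, 0, 0] := by
      constructor <;> simp
    have h1 : Sub t ![0, 1, 0, 0] := by
      constructor <;> simp
    have h2 := K.stable j _ h0
    have h3 := K.stable j _ h1
    obtain ⟨a2, a3⟩ := h2
    obtain ⟨b2, b3⟩ := h3
    simp [E] at a2 a3 b2 b3
    exact dvd_or hpp (hptz.trans a2) (hptz.trans a3) (hptz.trans b2) (hptz.trans b3)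
  -- the first class is stable under the monodromy
  have hstab : ∀ g : V4 ≃+ V4, (∀ a, Sub t (g a) ↔ Sub t a) → ∀ y : V4,
      (p : ℤ) ∣ y 2 → (p : ℤ) ∣ y 3 → (p : ℤ) ∣ g y 2 ∧ (p : ℤ) ∣ g y 3 := by
    intro g hg y h2 h3
    obtain ⟨r, hr⟩ := h2
    obtain ⟨s, hs⟩ := h3
    have hy : y = ![y 0, y 1, 0, 0] + (p : ℤ) • ![0, 0, r, s] := by
      funext i
      fin_cases i <;> simp [hr, hs]
    have h4 : Sub t (g ![y 0, y 1, 0, 0]) := by
      rw [hg]
      constructor <;> simp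
    obtain ⟨c2, c3⟩ := h4
    have h5 : g y = g ![y 0, y 1, 0, 0] + (p : ℤ) • g ![0, 0, r, s] := by
      conv_lhs => rw [hy]
      rw [map_add, map_zsmul]
    rw [h5]
    constructor
    · exact dvd_add (hptz.trans c2) ⟨g ![0, 0, r, s] 2, by simp⟩
    · exact dvd_add (hptz.trans c3) ⟨g ![0, 0, r, s] 3, by simp⟩
  by_cases hA : ∃ j, (p : ℤ) ∣ K.v j 2 ∧ (p : ℤ) ∣ K.v j 3
  · obtain ⟨j, hj2, hj3⟩ := hA
    have hall : ∀ k, (p : ℤ) ∣ K.v k 2 := by
      intro k
      obtain ⟨g, -, hg, h1⟩ := K.conj j k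
      have h2 := (hstab g hg _ hj2 hj3).1
      rcases h1 with h1 | h1
      · rwa [h1] at h2
      · rw [h1] at h2
        simpa using h2
    let P : AddSubgroup V4 :=
      { carrier := {y | (p : ℤ) ∣ y 2}
        zero_mem' := by simp
        add_mem' := fun {a b} ha hb => by
          simp only [Set.mem_ofPred_eq] at *
          exact dvd_add ha hb
        neg_mem' := fun {a} ha => by
          simp only [Set.mem_ofPred_eq] at *
          simpa using ha }
    have h1 : AddSubgroup.closure (Set.range K.v) ≤ P := by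
      rw [AddSubgroup.closure_le]
      rintro _ ⟨k, rfl⟩
      exact hall k
    rw [K.gen] at h1
    have h2 : (![0, 0, 1, 0] : V4) ∈ P := h1 (AddSubgroup.mem_top _)
    have h3 : (p : ℤ) ∣ 1 := by simpa [P] using h2
    exact hpp.not_isUnit (isUnit_of_dvd_one h3)
  · push Not at hA
    have hall : ∀ k, (p : ℤ) ∣ K.v k 0 := by
      intro k
      rcases hcls k with h | h
      · exact absurd h.2 (hA k h.1)
      · exact h.1
    let P : AddSubgroup V4 :=
      { carrier := {y | (p : ℤ) ∣ y 0}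
        zero_mem' := by simp
        add_mem' := fun {a b} ha hb => by
          simp only [Set.mem_ofPred_eq] at *
          exact dvd_add ha hb
        neg_mem' := fun {a} ha => by
          simp only [Set.mem_ofPred_eq] at *
          simpa using ha }
    have h1 : AddSubgroup.closure (Set.range K.v) ≤ P := by
      rw [AddSubgroup.closure_le]
      rintro _ ⟨k, rfl⟩
      exact hall k
    rw [K.gen] at h1
    have h2 : (![1, 0, 0, 0] : V4) ∈ P := h1 (AddSubgroup.mem_top _)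
    have h3 : (p : ℤ) ∣ 1 := by simpa [P] using h2
    exact hpp.not_isUnit (isUnit_of_dvd_one h3)

/-- THE RESULT FOR ONE FIBRATION. -/
theorem Numbers.of_fib {NS : Set Lam} (N : Numbers q) (hs : ∀ y z, q y z = q z y)
    (ha : ∀ y z w, q (y + z) w = q y w + q z w) (hx : q x x = 0)
    (hNS : ∀ y ∈ NS, q x y = 0 → ∃ m n : ℤ, m ≠ 0 ∧ m • y = n • x) (F : Fib q NS N.fuj x) :
    N.fuj = 3 ∧ (∀ b, Even (q b b)) ∧
      ∃ l m, q l l = 0 ∧ q m m = 0 ∧ (q l m = 1 ∨ q l m = -1) := by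
  obtain ⟨a, hapos, hacc⟩ := N.a_nat hs ha
  have hfuj : N.fuj = 3 * (a : ℚ) ^ 2 := by rw [N.fuj_eq, hacc]
  have haq : (0 : ℚ) < (a : ℚ) := by exact_mod_cast hapos
  have hkap : (0 : ℚ) < (F.kap : ℚ) := by exact_mod_cast F.kap_pos
  obtain ⟨b, hb⟩ := F.ample
  have hbq : (F.th b : ℚ) ≠ 0 := by exact_mod_cast hb
  have hfib : (F.d : ℚ) * (F.th b : ℚ) ^ 2 = ((F.kap : ℚ) * a * (q x b : ℚ)) ^ 2 := by
    have h1 := F.fibre b
    rw [hx] at h1
    push_cast at h1
    linear_combination h1 / 2 + (F.kap : ℚ) ^ 2 * (q x b : ℚ) ^ 2 / 3 * hfuj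
  -- `d` is a square
  obtain ⟨t, ht⟩ : ∃ t : ℕ, F.d = t ^ 2 := by
    have h1 : ((F.kap : ℚ) * a * (q x b : ℚ) / F.th b) ^ 2 = ((F.d : ℤ) : ℚ) := by
      rw [div_pow, ← hfib]
      field_simp
      push_cast
      ring
    obtain ⟨k, hk⟩ := int_of_sq h1
    refine ⟨k.natAbs, ?_⟩
    rw [hk] at h1
    have h2 : k ^ 2 = (F.d : ℤ) := by exact_mod_cast h1
    have h3 : ((k.natAbs ^ 2 : ℕ) : ℤ) = (F.d : ℤ) := by
      push_cast
      rw [sq_abs]
      exact h2
    exact_mod_cast h3.symm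
  obtain ⟨D⟩ := F.discr t ht
  obtain ⟨K⟩ := D.result hs ha hx hNS
  have ht1 : t = 1 := K.t_eq_one
  have hd1 : F.d = 1 := by rw [ht, ht1]; rfl
  obtain ⟨Y⟩ := K.leray ht1
  obtain ⟨l', m', hl', hm', hll', hmm', hlm'⟩ := K.pair
  -- the lifts
  obtain ⟨l, hl, hlY⟩ := Y.onto (Y.cur l')
  obtain ⟨m, hm, hmY⟩ := Y.onto (Y.cur m')
  have hform : ∀ y z, q x y = 0 → q x z = 0 →
      (F.kap : ℚ) * (a : ℚ) ^ 2 * q x b * q y z = F.th b * Y.pr (Y.toM y) (Y.toM z) := by
    intro y z hy hz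
    have h1 := Y.int_X y z hy hz b
    rw [hy, hz] at h1
    push_cast at h1
    linear_combination h1 - (F.kap : ℚ) * q x b * q y z / 3 * hfuj
  have hqb : (q x b : ℚ) ≠ 0 := by
    intro h0
    rw [h0, hd1] at hfib
    norm_num at hfib
    exact hb hfib
  rw [hd1] at hfib
  have hpm : (F.th b : ℚ) = F.kap * a * q x b ∨ (F.th b : ℚ) = - (F.kap * a * q x b) := by
    have h1 : (F.th b : ℚ) ^ 2 = ((F.kap : ℚ) * a * (q x b : ℚ)) ^ 2 := by
      rw [← hfib]
      push_cast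
      ring
    exact sq_eq_sq_iff_eq_or_eq_neg.mp h1
  have hne : (F.kap : ℚ) * a * q x b ≠ 0 := mul_ne_zero (mul_ne_zero hkap.ne' haq.ne') hqb
  -- `a q(l, m) = 1` or `- 1`
  have h1 := hform l m hl hm
  rw [hlY, hmY, Y.int_S l' m' hl' hm', hlm'] at h1
  have h2 : (a : ℚ) * q l m = 1 ∨ (a : ℚ) * q l m = -1 := by
    rcases hpm with h | h
    · left
      rw [h] at h1
      have h3 : (F.kap : ℚ) * a * q x b * (a * q l m) = F.kap * a * q x b * 1 := by
        push_cast at h1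
        linear_combination h1
      exact mul_left_cancel₀ hne h3
    · right
      rw [h] at h1
      have h3 : (F.kap : ℚ) * a * q x b * (a * q l m) = F.kap * a * q x b * (-1) := by
        push_cast at h1
        linear_combination h1
      exact mul_left_cancel₀ hne h3
  have hzero : ∀ y, q x y = 0 → Y.pr (Y.toM y) (Y.toM y) = 0 → q y y = 0 := by
    intro y hy hyy
    have h3 := hform y y hy hy
    rw [hyy] at h3
    have h4 : (F.kap : ℚ) * a * q x b * (a * q y y) = 0 := by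
      push_cast at h3
      linear_combination h3
    rcases mul_eq_zero.mp h4 with h5 | h5
    · exact absurd h5 hne
    · rcases mul_eq_zero.mp h5 with h6 | h6
      · exact absurd h6 haq.ne'
      · exact_mod_cast h6
  have h3 : (a : ℤ) * q l m = 1 ∨ (a : ℤ) * q l m = -1 := by
    rcases h2 with h | h
    · left; exact_mod_cast h
    · right; exact_mod_cast h
  have ha1 : a = 1 := by
    have h4 : (a : ℤ) ∣ 1 := by
      rcases h3 with h | h
      · exact ⟨_, h.symm⟩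
      · exact ⟨- q l m, by rw [mul_neg, h]; norm_num⟩
    have h5 : a ∣ 1 := by exact_mod_cast h4
    exact Nat.dvd_one.mp h5
  subst ha1
  refine ⟨by rw [hfuj]; norm_num, fun y => ?_, l, m, hzero l hl ?_, hzero m hm ?_, ?_⟩
  · obtain ⟨k, hk⟩ := N.even y
    rw [hacc] at hk
    refine ⟨k, ?_⟩
    have h5 : (q y y : ℚ) = 2 * k := by rw [← hk]; push_cast; ring
    have h6 : q y y = 2 * k := by exact_mod_cast h5
    rw [h6]
    ring
  · rw [hlY, Y.int_S l' l' hl' hl', hll']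
  · rw [hmY, Y.int_S m' m' hm' hm', hmm']
  · rcases h3 with h | h
    · left; simpa using h
    · right; simpa using h

end Pool.Agent.H29.KT
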