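import Pool.Agent.H73.HK.Iface

/-!
# Hyperkaehler fourfolds with second Betti number 23: the published facts used for the parity

Notation. `Lam = H^2(X, Z)` is the lattice of a deformation class `C` (file `Iface` of helper73) of
hyperkaehler fourfolds with `b_2 = 23`, `q` its Beauville-Bogomolov form.  For a Lagrangian
fibration `f : X → P^2` with smooth fibre `F` put `H = H_1(F, Z)`, `V = R^1 f_* Q`; `Delta` is the
union of the irreducible plane curves `Delta_i` of degree `deg i` outside of which `f` is smooth
(some finite set of points apart) and `T_i` is the monodromy around `Delta_i`; `T_i = 1` is allowed.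
-/

namespace Pool.Agent.H29.KT

open scoped BigOperators

/-- The lattice `H' = Z^4` with its unimodular alternating form; it is `H_1` of the principally
polarised surface `F' = F / K[t]`, where `K = (Z/t^2)^2` is the kernel of the polarisation of the
fibre `F`, of type `(1, t^2)`; the subgroup `K[t] = tK` is isotropic and canonical, so that the
monodromy acts on `H'`. -/
abbrev V4 : Type := Fin 4 → ℤ

def E (a b : V4) : ℤ := a 0 * b 1 - a 1 * b 0 + (a 2 * b 3 - a 3 * b 2)

/-- The sublattice `H = H_1(F, Z)` of `H'`, on which the form has type `(1, t^2)`. -/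
def Sub (t : ℕ) (h : V4) : Prop := (t : ℤ) ∣ h 2 ∧ (t : ℤ) ∣ h 3

/-- THE LOCAL MONODROMY `T` on `H'` at a general point `b` of a component of `Delta`. -/
structure Mono where
  T : V4 ≃+ V4
  symp : ∀ a b, E (T a) (T b) = E a b
  /-- MONODROMY THEOREM (LANDMAN, GRIFFITHS), weight one. -/
  quasi : ∃ N : ℕ, 0 < N ∧ ∀ x, T^[N] (T^[N] x) = 2 • T^[N] x - x
  /-- DELTA-REGULARITY (HWANG-OGUISO, NGO): the affine part of the group `P_b` of dimension two
  acting on the fibre over `b` has dimension at most one, and `H_1(P_b)` injects into the invariants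
  (torsion points of `P_b` extend uniquely to nearby fibres).  Either the invariants have rank at
  least three (affine part trivial or `G_m`), or `H_1(P_b)` is `H_1` of an elliptic curve, with the
  form of a polarisation. -/
  delta : (∃ w, ∀ x, ∃ c : ℤ, T x = x + c • w) ∨ ∃ a b, T a = a ∧ T b = b ∧ E a b ≠ 0
  /-- SCHMID, CLEMENS: the form of the limit is positive, for the sign of `E` and the orientation of
  the loops chosen once and for all. -/
  pos : ∀ (n : ℤ) (v : V4), v ≠ 0 → (∀ x, T x = x + (n * E v x) • v) → 0 ≤ n

/-- the rank of `T - 1`. -/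
noncomputable def Mono.rk (M : Mono) : ℕ :=
  Module.finrank ℤ (M.T.toAddMonoidHom - AddMonoidHom.id V4).range

/-- `T = 1 + n E(v, .) v`, `v` primitive. -/
def Mono.IsUnip (M : Mono) (n : ℕ) : Prop :=
  ∃ v, (∀ (r : ℕ) (w : V4), v = r • w → r = 1) ∧ ∀ x, M.T x = x + (n * E v x) • v

/-- `T` is the identity on the orthogonal complement of a unimodular plane `W` with basis `c, d`,
and it has order `m` on `W` (used for `m = 3, 4, 6`, where no power `T^j`, `0 < j < m`, fixes a
vector of `W` different from zero). -/
def Mono.IsFin (M : Mono) (m : ℕ) : Prop :=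
  ∃ c d, E c d = 1 ∧ (∀ x, E c x = 0 → E d x = 0 → M.T x = x) ∧ (∀ x, M.T^[m] x = x) ∧
    ∀ j, 0 < j → j < m → M.T^[j] c ≠ c

/-- `T` is the identity on a non degenerate plane, and `- T` is unipotent on the orthogonal
complement of this plane. -/
def Mono.IsNeg (M : Mono) : Prop :=
  ∃ a b, M.T a = a ∧ M.T b = b ∧ E a b ≠ 0 ∧
    ∀ x, E a x = 0 → E b x = 0 → M.T (M.T x) + 2 • M.T x + x = 0

/-- THE CASE THAT EVERY `F'` IS A PRODUCT of two elliptic curves, as polarised surface. `sw` = the
components around which the two factors are exchanged. `o i` = order along `Delta_i` of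
`Delta(tau_1) Delta(tau_2)`, a section without zeros outside of `Delta` of the 12th power of
`f_* omega_(X/P^2) = O(3)`, which is the upper canonical extension of the Hodge bundle (KOLLAR).
`inv` = rank of the monodromy invariants of `H^2(F, Q)`. -/
structure ProductCase {I : Type} [Fintype I] (deg : I → ℕ) (M : I → Mono) (inv : ℕ) where
  sw : Finset I
  /-- if no component exchanges the factors, they give two independent invariant classes. -/
  two : ¬ sw.Nonempty → 2 ≤ inv
  /-- the double cover of the plane defined by the two factors is branched along them. -/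
  even : Even (∑ i ∈ sw, deg i)
  o : I → ℕ
  total : ∑ i, deg i * o i = 12 * 3
  /-- `T_i` is an involution: `T_i` exchanges the factors and has invariants of rank two. The
  exponents of the canonical extension are `0, 1/2`: the order is at least `12/2`. -/
  swap : ∀ i ∈ sw, 12 ≤ 2 * o i
  /-- `v` is in one of the two factors, the other one has trivial monodromy. -/
  unip : ∀ i, i ∉ sw → ∀ n, (M i).IsUnip n → o i = n
  /-- the plane `W` is one of the two factors, of type II, III, IV, IV^*, III^*, II^* (KODAIRA),
  exponent `a / m`. -/
  fin : ∀ i, i ∉ sw → ∀ m, (m = 3 ∨ m = 4 ∨ m = 6) → (M i).IsFin m →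
    ∃ a, 0 < a ∧ a < m ∧ m * o i = 12 * a
  /-- types I_n^*. -/
  neg : ∀ i, i ∉ sw → (M i).IsNeg → 12 ≤ 2 * o i

/-- EXPANSIONS along `Delta_i` if `T_i` is of order `m` on a unimodular plane `W`: on the cover
`u^m = s` the family `F'` extends, with a product as limit, `T_i` acts on the first factor, and
`a/m` is the exponent of the upper canonical extension. `k` = order in `u` of the period
`z = tau_12`, which has weight `-1` in the first factor.  `ord`: one has
`chi_10 = Delta(tau_1) Delta(tau_2) z^2 + ..` (IGUSA), a section of the 10th power.  `coef`: the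
coefficients of the universal binary sextic are holomorphic in `tau_1, tau_2, z` near the limit,
except for a simple pole along `z = 0` of that of `X^3 Y^3` (CLERY, FABER, VAN DER GEER);
`X = u^a X_c` for the first coordinate `X_c` of the upper canonical extension, and the sextic is a
section of `Sym^6 (x) det^(-2)`, so that the coefficient of `X_c^j Y^(6-j)` is `u^(a(j-2))` times a
function of `u` of order `r`; it is a function of `s`, vanishing to the order `e j` (for a
coefficient which is zero: take any large number). -/
structure FinExp (m : ℕ) (o : ℕ) (e : Fin 7 → ℤ) where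
  a : ℕ
  a_pos : 0 < a
  a_lt : a < m
  k : ℕ
  k_mod : k % m = a
  ord : m * o = 10 * a + 2 * k
  coef : ∀ j : Fin 7, ∃ r : ℤ, (m : ℤ) * e j = a * ((j : ℤ) - 2) + r ∧ (j ≠ 3 → 0 ≤ r) ∧
    (j = 3 → - (k : ℤ) ≤ r)

/-- THE SEXTIC (MARKUSHEVICH). The universal binary sextic (IGUSA; CLERY, FABER, VAN DER GEER) is a
section of `Sym^6` of the Hodge bundle times `det^(-2)`; the Hodge bundle is
`R^1 f_* omega_(X/P^2) = T`, the tangent bundle of the plane (MATSUSHITA, KOLLAR), and the sections
of `Sym^6(T) (x) O(-6) = Sym^6(T(-1))` are the sextics `Sigma` of the dual plane; the discriminant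
is `chi_10`, not zero, so `Sigma` is reduced.  The moduli stack of curves of genus two is the open
substack of the moduli stack of principally polarised abelian surfaces where the polarised surface
is not a product (TORELLI), and it is the quotient of the space of binary sextics with non zero
discriminant by `GL_2`; so the family `F'` is the Jacobian of the family of the double covers `C_s`
of the lines `s`, branched along `Sigma`, and `H' = H_1(C_s, Z)`. -/
structure Sextic {I : Type} (deg : I → ℕ) (M : I → Mono) (o : I → ℕ) (hIC : ℕ)
    (End : Prop) where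
  /-- the singular points of `Sigma`, with Milnor number and multiplicity. -/
  Q : Type
  [fin : Fintype Q]
  mu : Q → ℕ
  mult : Q → ℕ
  mult_ge : ∀ s, 2 ≤ mult s
  mu_ge : ∀ s, (mult s - 1) ^ 2 ≤ mu s
  /-- the dual lines are components of the divisor of the discriminant, with multiplicity
  `mu + mult - 1` (PLUECKER, TEISSIER); this divisor is supported on `Delta`. -/
  line : Q → I
  line_inj : Function.Injective line
  line_deg : ∀ s, deg (line s) = 1
  line_ord : ∀ s, o (line s) + 1 = mu s + mult s
  /-- a double point `A_mu` gives the monodromy `1 + (mu + 1) E(v, .) v` of the curves `C_s`. -/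
  line_unip : ∀ s, mult s = 2 → (M (line s)).IsUnip (mu s + 1)
  /-- If `Sigma` has one node only, it is irreducible. DECOMPOSITION THEOREM for the family of the
  curves `C_s`, a `P^1`-bundle over the resolved double plane (a K3 surface, `b_2 = 22`); the curves
  over the dual line have two components. -/
  node : Fintype.card Q = 1 → (∀ s, mult s = 2 ∧ mu s = 1) → 22 + 1 = 1 + hIC + 1 + 1
  smooth : IsEmpty Q → End

attribute [instance] Sextic.fin

/-- THE OTHER CASE: IGUSA's cusp form `chi_10`, with the square of the product locus as zero divisor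
on the moduli space, is a non zero section of the 10th power of `f_* omega_(X/P^2) = O(3)` over the
plane. `o i` is its order along `Delta_i`, `2 hp` the degree of the rest of its divisor. `e i j` =
order along `Delta_i` of the `j`-th coefficient of the binary sextic, in a frame of the upper
canonical extension (any large number, if the coefficient is zero). -/
structure Igusa {I : Type} [Fintype I] (deg : I → ℕ) (M : I → Mono) (hIC : ℕ)
    (End : Prop) where
  o : I → ℕ
  hp : ℕ
  total : ∑ i, deg i * o i + 2 * hp = 10 * 3
  e : I → Fin 7 → ℤ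
  /-- Fourier-Jacobi expansion: `chi_10` is `exp(2 pi i tau_1)` times a function with double zeros
  along the product locus; outside of it the sextic is holomorphic. -/
  unip : ∀ i n, (M i).IsUnip n → ∃ j, o i = n + 2 * j ∧ (j = 0 → ∀ k, 0 ≤ e i k)
  fin : ∀ i m, (m = 3 ∨ m = 4 ∨ m = 6) → (M i).IsFin m → Nonempty (FinExp m (o i) (e i))
  /-- the exponents are `0, 1/2`: at least `10/2`. -/
  neg : ∀ i, (M i).IsNeg → 10 ≤ 2 * o i
  /-- the sextic has poles at most on the locus of products and on `Delta`. -/
  sextic : hp = 0 → (∀ i k, 0 ≤ e i k) → Nonempty (Sextic deg M o hIC End)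

/-- LERAY for `f` and for the family `g` of the curves `C_s`, if `H = H'`. `M` is `H^1` of the plane
with coefficients in `R^1 f_* Z = R^1 g_* Z`, the extension of the local system `H^1(F, Z)`: the
curves `C_s` are integral, as the Picard number of `S` is one, and the divisor `f^(-1)(Delta)` is
reduced, the local monodromies being unipotent (for a multiple fibre the monodromy is not unipotent,
as the holomorphic two-form identifies `R^1 f_* O` with the cotangent bundle of the base and of its
covers). `pr` is the pairing of `M` given by the cup product on `H^1(C_s, Z)`, restricted to a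
general line. -/
structure Leray {Lam : Type} [AddCommGroup Lam] (q : Lam → Lam → ℤ) (fuj : ℚ) (x : Lam) (kap : ℕ)
    (th : Lam → ℤ) (L : Type) (dot : L → L → ℤ) (hh : L) where
  M : Type
  pr : M → M → ℤ
  /-- a class `b` with `q(x, b) = 0` restricts to zero on `F`, and the components of a general fibre
  over `Delta_i` are permuted transitively, and no section of `R^2 f_* Z` is supported at a point
  `p` (`H^1` of a punctured ball around `p` with coefficients in `R^1 g_* Z` is zero, because
  `R^2 g_* Z = Z` and `g` has local sections): it is in the first step of the filtration. -/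
  toM : Lam → M
  /-- `H^3(P^2, Z) = 0`. -/
  onto : ∀ m, ∃ b, q x b = 0 ∧ toM b = m
  /-- the integral of `f^*(line) . b . c . a` over `X`, by FUJIKI's relation and on the threefold
  `f^(-1)(line)`, where `a` restricts to `th a` times the principal polarisation of the fibres, the
  class of `C_s` (POINCARE). -/
  int_X : ∀ b c, q x b = 0 → q x c = 0 → ∀ a, (kap : ℚ) * (fuj / 3) *
    (q x b * q c a + q x c * q b a + q x a * q b c) = th a * pr (toM b) (toM c)
  /-- a class `D` of `S` with `D.h = 0` restricts to zero on `C_s`; the surface over a general line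
  is `S` blown up in two points. -/
  cur : L → M
  int_S : ∀ D D', dot D hh = 0 → dot D' hh = 0 → pr (cur D) (cur D') = dot D D'

/-- THE END: `S` is a K3 surface, the double plane branched along a smooth sextic `Sigma` of the
dual plane, of Picard number one; over a point `s` of the plane outside of the dual curve of
`Sigma` the surface `F'` is the Jacobian of the double cover `C_s` of the line `s` in `S`. -/
structure K3End {Lam : Type} [AddCommGroup Lam] (q : Lam → Lam → ℤ) (fuj : ℚ) (x : Lam) (kap : ℕ)
    (th : Lam → ℤ) (t : ℕ) where
  /-- `H^2(S, Z)`, the intersection form, the class `h` of the pull back of a line. -/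
  L : Type
  [grp : AddCommGroup L]
  dot : L → L → ℤ
  hh : L
  /-- `H^2(S, Z)` is the K3 lattice and `h^2 = 2`, so the orthogonal complement of `h` is the sum of
  two hyperbolic planes, two copies of `E_8(-1)` and `<-2>`. -/
  pair : ∃ l m, dot l hh = 0 ∧ dot m hh = 0 ∧ dot l l = 0 ∧ dot m m = 0 ∧ dot l m = 1
  /-- the vanishing cycles of the curves `C_s` on a general pencil of lines: they generate
  `H_1(C_s, Z) = H'`, because `S` is simply connected (PICARD-LEFSCHETZ). -/
  J : Type
  v : J → V4
  gen : AddSubgroup.closure (Set.range v) = ⊤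
  /-- the monodromy acts on `H`, in particular the transvections do. -/
  stable : ∀ j h, Sub t h → Sub t (h + E (v j) h • v j)
  /-- the dual curve is irreducible, so they are conjugate under the monodromy, up to sign. -/
  conj : ∀ j k, ∃ g : V4 ≃+ V4, (∀ a b, E (g a) (g b) = E a b) ∧ (∀ a, Sub t (g a) ↔ Sub t a) ∧
    (g (v j) = v k ∨ g (v j) = - v k)
  /-- LERAY, only for `t = 1`, that is `H = H'`. -/
  leray : t = 1 → Nonempty (Leray q fuj x kap th L dot hh)

attribute [instance] K3End.grp

/-- THE DISCRIMINANT of a Lagrangian fibration of a projective fourfold with Neron-Severi group `NS`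
of rank two. -/
structure Discr {Lam : Type} [AddCommGroup Lam] (q : Lam → Lam → ℤ) (NS : Set Lam) (x : Lam)
    (End : Prop) where
  I : Type
  [fin : Fintype I]
  deg : I → ℕ
  deg_pos : ∀ i, 0 < deg i
  M : I → Mono
  /-- the number of components of the divisor `f^(-1)(Delta_i)`. -/
  comp : I → ℕ
  /-- ZARISKI's lemma: `x.x.D = 0` for a component `D`, and if there are several components then
  `x.D.D.A < 0` for an ample class `A`, for one of them; with FUJIKI's relation. -/
  zariski : ∀ i, 1 < comp i → ∃ D ∈ NS, q x D = 0 ∧ q D D < 0
  /-- the rank of the invariants of `H^2(F, Q)`: they are the image of `H^2(X, Q)` (DELIGNE), which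
  has rank one (VOISIN, MATSUSHITA). -/
  inv : ℕ
  inv_eq : inv = 1
  /-- `hIC` is the dimension of `H^1(P^2, IC(V))`. DECOMPOSITION THEOREM: `b_2(X)` is the sum of
  `b_2(P^2)`, `hIC`, the numbers of components minus one, and `inv`. -/
  hIC : ℕ
  decomposition : 23 = 1 + hIC + ∑ i, (comp i - 1) + inv
  /-- the dimension of `H^1` of a general line with coefficients in the extension `j_* V`. LEFSCHETZ
  (GORESKY-MACPHERSON): the restriction is injective. EULER's formula: `H^0` and `H^2` vanish, as
  `V` has no invariants, because `H^1(X) = 0` (DELIGNE; ZARISKI's theorem for the line). -/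
  hline : ℕ
  lefschetz : hIC ≤ hline
  euler : (4 : ℤ) * (2 - ∑ i, (deg i : ℤ)) + ∑ i, (deg i : ℤ) * (4 - ((M i).rk : ℤ)) = - hline
  alt : Nonempty (ProductCase deg M inv) ∨ Nonempty (Igusa deg M hIC End)

attribute [instance] Discr.fin

/-- A LAGRANGIAN FIBRATION `f : X → P^2` (HUYBRECHTS-XU), `f^* O(1) = kap x`, of a projective member
with Neron-Severi group `NS` of rank two. -/
structure Fib {Lam : Type} [AddCommGroup Lam] (q : Lam → Lam → ℤ) (NS : Set Lam) (fuj : ℚ)
    (x : Lam) where
  kap : ℕ
  kap_pos : 0 < kap
  /-- the restriction of the class `b` to a smooth fibre `F` is `th b` times the primitive invariant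
  class `theta`, a polarisation of type `(1, d)`. -/
  th : Lam → ℤ
  d : ℕ
  d_pos : 0 < d
  /-- `(b|F)^2 = 2 d (th b)^2` equals the integral of `b^2 (kap x)^2` (FUJIKI's relation). -/
  fibre : ∀ b, 2 * (d : ℚ) * (th b : ℚ) ^ 2 =
    (kap : ℚ) ^ 2 * (fuj / 3) * (q b b * q x x + 2 * (q x b : ℚ) ^ 2)
  /-- an ample class. -/
  ample : ∃ b, th b ≠ 0
  /-- for `d = t^2` the polarisation descends to a principal one on the quotient `F'` of `F` by the
  `t`-torsion of the kernel of the polarisation, and `H` in `H'` is the sublattice `Sub t`. -/
  discr : ∀ t : ℕ, d = t ^ 2 → Nonempty (Discr q NS x (Nonempty (K3End q fuj x kap th t)))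

/-- `x` is a primitive isotropic nef class on the projective member `Y`, and the classes of the
Neron-Severi group orthogonal to it are its multiples (so the Picard number is two). -/
def Good {Lam : Type} [AddCommGroup Lam] (C : Pool.Agent.H73.HK.DefClass Lam) (Y : C.Mem)
    (x : Lam) : Prop :=
  x ∈ (C.M Y).Nef ∧ x ≠ 0 ∧ C.q x x = 0 ∧ (∀ n : ℕ, ∀ y : Lam, x = n • y → n = 1) ∧
    ∀ y ∈ (C.M Y).NS, C.q x y = 0 → ∃ m n : ℤ, m ≠ 0 ∧ m • y = n • x

/-- THE CHARACTERISTIC NUMBERS of a hyperkaehler fourfold with `b_2 = 23`, with Beauville-Bogomolov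
form `q` on `Lam`. -/
structure Numbers {Lam : Type} [AddCommGroup Lam] (q : Lam → Lam → ℤ) where
  /-- FUJIKI: the integral of `b^4` is `fuj q(b)^2`, the one of `c_2 b^2` is `cc q(b)`. -/
  fuj : ℚ
  cc : ℚ
  fuj_pos : 0 < fuj
  cc_pos : 0 < cc
  /-- the Betti numbers (GUAN; SALAMON). -/
  b3 : ℚ
  b4 : ℚ
  guan : b3 = 0
  salamon : b4 = 46 + 10 * 23 - b3
  /-- the numbers `c_2^2` and `c_4` (GAUSS-BONNET; RIEMANN-ROCH, `chi(O) = 3`). -/
  c22 : ℚ
  c4 : ℚ
  euler_number : c4 = 2 + 2 * 23 - 2 * b3 + b4
  todd : (3 * c22 - c4) / 720 = 3
  /-- HITCHIN-SAWON, NIEPER-WISSKIRCHEN, for the square root of the Todd genus, whose integral is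
  `(7 c_2^2 - 4 c_4)/5760`. -/
  hitchin_sawon : cc ^ 2 = 384 * ((7 * c22 - 4 * c4) / 5760) * fuj
  /-- RIEMANN-ROCH: the Euler characteristic of a line bundle of class `b` (which exists on a
  deformation). -/
  rr : ∀ b : Lam, ∃ n : ℤ, fuj / 24 * (q b b : ℚ) ^ 2 + cc / 24 * (q b b : ℚ) + 3 = n
  /-- normalisation of the Beauville-Bogomolov form. -/
  prim : ∀ n : ℕ, (∀ a b, (n : ℤ) ∣ q a b) → n = 1

/-- PUBLISHED FACTS on a deformation class of hyperkaehler fourfolds with `b_2 = 23`. -/
structure Class23 {Lam : Type} [AddCommGroup Lam] (C : Pool.Agent.H73.HK.DefClass Lam)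
    extends Numbers C.q where
  /-- MEYER (an indefinite form of rank 23 has a primitive isotropic vector `x`); surjectivity of
  the period map (HUYBRECHTS): a member with Neron-Severi group of rank two which contains `x` and a
  class of positive square, so projective; MARKMAN: `x` is in the closure of the movable cone, up to
  the Weyl group of the prime exceptional divisors, so it is nef on a birational model, again a
  member (there are finitely many chambers, the rank being two). -/
  general : ∃ (Y : C.Mem) (x : Lam), Good C Y x
  /-- a semiample isotropic class defines a Lagrangian fibration (MATSUSHITA). -/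
  fib : ∀ Y x, Good C Y x → x ∈ (C.M Y).Semiample →
    Nonempty (Fib C.q ((C.M Y).NS : Set Lam) fuj x)

/-- THE STATEMENT: for every hyperkaehler fourfold with `b_2 = 23` the Beauville-Bogomolov form is
even, and Fujiki's constant is 3. -/
def Parity : Prop :=
  ∀ (Lam : Type) [AddCommGroup Lam] (C : Pool.Agent.H73.HK.DefClass Lam) (K : Class23 C),
    (∀ b : Lam, Even (C.q b b)) ∧ K.fuj = 3

end Pool.Agent.H29.KT
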