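import Pool.Agent.H29.KT.End
import Pool.Agent.H73.HK.Main

/-!
# Fourfolds with second Betti number 23: the Beauville-Bogomolov form is even

`Pool.Agent.H73.HK.main` (HK4): nef classes on members are semiample.
-/

namespace Pool.Agent.H29.KT

/-- THE MAIN THEOREM. -/
theorem parity : Parity := by
  intro Lam _ C K
  obtain ⟨Y, x, hg⟩ := K.general
  obtain ⟨F⟩ := K.fib Y x hg (Pool.Agent.H73.HK.main Lam C Y hg.1)
  obtain ⟨h1, h2, -⟩ := K.toNumbers.of_fib C.q_symm C.q_add hg.2.2.1 hg.2.2.2.2 F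
  exact ⟨h2, h1⟩

end Pool.Agent.H29.KT
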