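import Pool.Agent.H29.KT.Defs

/-!
# The characteristic numbers

`Q = a q`, `a = C / 30`, is an even integral form, `f_X = 3 a ^ 2` and `a` is an integer.
-/

namespace Pool.Agent.H29.KT

variable {Lam : Type} [AddCommGroup Lam] {q : Lam → Lam → ℤ}

/-- A rational number with an integral square is an integer. -/
theorem int_of_sq {r : ℚ} {m : ℤ} (h : r ^ 2 = m) : ∃ k : ℤ, r = k := by
  have h1 : IsIntegral ℤ (r ^ 2) := by
    rw [h]; exact isIntegral_algebraMap (R := ℤ) (A := ℚ)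
  have h2 : IsIntegral ℤ r := IsIntegral.of_pow (by norm_num) h1
  obtain ⟨z, hz⟩ := IsIntegrallyClosed.isIntegral_iff.mp h2
  exact ⟨z, by rw [← hz]; rfl⟩

/-- `f_X = 3 a ^ 2`. -/
theorem Numbers.fuj_eq (N : Numbers q) : N.fuj = 3 * (N.cc / 30) ^ 2 := by
  have h1 : N.c4 = 324 := by
    have h1 := N.euler_number
    have h2 := N.salamon
    rw [N.guan] at h1 h2
    linarith
  have h2 := N.todd
  have h3 := N.hitchin_sawon
  have h4 : N.c22 = 828 := by rw [h1] at h2; linarith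
  rw [h1, h4] at h3
  linarith

/-- Riemann-Roch in terms of `Q = a q`: `8 chi + 1 = (Q + 5) ^ 2`. -/
theorem Numbers.even (N : Numbers q) (b : Lam) : ∃ k : ℤ, N.cc / 30 * (q b b : ℚ) = 2 * k := by
  obtain ⟨n, hn⟩ := N.rr b
  have h1 : (N.cc / 30 * (q b b : ℚ) + 5) ^ 2 = ((8 * n + 1 : ℤ) : ℚ) := by
    rw [N.fuj_eq] at hn
    push_cast
    rw [← hn]
    ring
  obtain ⟨z, hz⟩ := int_of_sq h1
  rw [hz] at h1
  have h5 : z ^ 2 = 8 * n + 1 := by exact_mod_cast h1
  have h6 : z % 2 = 1 := by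
    rcases Int.emod_two_eq_zero_or_one z with h | h
    · exfalso
      obtain ⟨w, hw⟩ : ∃ w, z = 2 * w := ⟨z / 2, by omega⟩
      rw [hw] at h5
      have h7 : 4 * w ^ 2 = 8 * n + 1 := by rw [← h5]; ring
      omega
    · exact h
  obtain ⟨w, hw⟩ : ∃ w, z = 2 * w + 1 := ⟨z / 2, by omega⟩
  refine ⟨w - 2, ?_⟩
  have h8 : N.cc / 30 * (q b b : ℚ) = z - 5 := by rw [← hz]; ring
  rw [h8, hw]
  push_cast
  ring

/-- The bilinear form `Q` is integral. -/
theorem Numbers.int (N : Numbers q) (hs : ∀ x y, q x y = q y x)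
    (ha : ∀ x y z, q (x + y) z = q x z + q y z) (b c : Lam) :
    ∃ k : ℤ, N.cc / 30 * (q b c : ℚ) = k := by
  obtain ⟨k1, h1⟩ := N.even b
  obtain ⟨k2, h2⟩ := N.even c
  obtain ⟨k3, h3⟩ := N.even (b + c)
  refine ⟨k3 - k1 - k2, ?_⟩
  have h4 : (q (b + c) (b + c) : ℚ) = q b b + 2 * q b c + q c c := by
    have h5 : q (b + c) (b + c) = q b b + 2 * q b c + q c c := by
      rw [ha, hs b (b + c), hs c (b + c), ha, ha, hs c b]
      ring
    rw [h5]
    push_cast
    ring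
  rw [h4] at h3
  push_cast
  linarith

/-- `a` is a positive integer. -/
theorem Numbers.a_nat (N : Numbers q) (hs : ∀ x y, q x y = q y x)
    (ha : ∀ x y z, q (x + y) z = q x z + q y z) : ∃ n : ℕ, 0 < n ∧ N.cc / 30 = n := by
  have hpos : 0 < N.cc / 30 := by have := N.cc_pos; positivity
  have hden : (N.cc / 30).den = 1 := by
    refine N.prim _ fun b c => ?_
    obtain ⟨k, hk⟩ := N.int hs ha b c
    have h1 : ((N.cc / 30).num : ℚ) * (q b c : ℚ) = k * ((N.cc / 30).den : ℚ) := by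
      have h2 : (N.cc / 30) * ((N.cc / 30).den : ℚ) = ((N.cc / 30).num : ℚ) :=
        Rat.mul_den_eq_num _
      rw [← h2, ← hk]
      ring
    have h3 : (N.cc / 30).num * q b c = k * ((N.cc / 30).den : ℤ) := by exact_mod_cast h1
    have h4 : (((N.cc / 30).den : ℕ) : ℤ) ∣ (N.cc / 30).num * q b c := ⟨k, by rw [h3]; ring⟩
    have h5 : IsCoprime (((N.cc / 30).den : ℕ) : ℤ) (N.cc / 30).num := by
      have h6 := (N.cc / 30).reduced
      rw [Int.isCoprime_iff_gcd_eq_one, Int.gcd_comm]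
      simpa [Int.gcd, Nat.Coprime] using h6
    exact h5.dvd_of_dvd_mul_left h4
  have hnum : ((N.cc / 30).num : ℚ) = N.cc / 30 := by
    have h2 : (N.cc / 30) * ((N.cc / 30).den : ℚ) = ((N.cc / 30).num : ℚ) :=
      Rat.mul_den_eq_num _
    rw [hden] at h2
    rw [← h2]
    simp
  have hnpos : 0 < (N.cc / 30).num := Rat.num_pos.mpr hpos
  refine ⟨(N.cc / 30).num.toNat, by omega, ?_⟩
  have h3 : (((N.cc / 30).num.toNat : ℤ) : ℚ) = ((N.cc / 30).num : ℚ) := by
    rw [Int.toNat_of_nonneg hnpos.le]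
  rw [← hnum]
  rw [← h3]
  norm_cast

end Pool.Agent.H29.KT
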